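import Pool.Agent.X302.TR.Stm

/-!
# Part SCALE of project TR: rational inequalities can be scaled to integer rows
-/

set_option autoImplicit false

namespace Pool.Agent.X123.TR

open Pool.Agent.X302.TR

/-- a common denominator of a row -/
theorem row_den {n : ℕ} (r : Fin n → ℚ) :
    ∃ (N : ℕ) (a : Fin n → ℤ), 0 < N ∧ ∀ j, (a j : ℝ) = (N : ℝ) * ((r j : ℚ) : ℝ) := by
  obtain ⟨N, hN⟩ : ∃ N : ℕ, N = ∏ j, (r j).den := ⟨_, rfl⟩
  have hN0 : 0 < N := by
    rw [hN]
    exact Finset.prod_pos fun j _ => (r j).den_pos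
  have h : ∀ j, ∃ z : ℤ, (z : ℚ) = (N : ℚ) * r j := by
    intro j
    have hd : (r j).den ∣ N := by
      rw [hN]
      exact Finset.dvd_prod_of_mem _ (Finset.mem_univ j)
    obtain ⟨c, hc⟩ := hd
    refine ⟨(c : ℤ) * (r j).num, ?_⟩
    have h1 : (r j) * ((r j).den : ℚ) = ((r j).num : ℚ) := Rat.mul_den_eq_num (r j)
    push_cast
    rw [hc, ← h1]
    push_cast
    ring
  choose a ha using h
  refine ⟨N, a, hN0, fun j => ?_⟩
  have h2 := ha j
  have h3 : ((a j : ℚ) : ℝ) = (((N : ℚ) * r j : ℚ) : ℝ) := by rw [h2]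
  push_cast at h3
  exact h3

theorem t_SCALE : S_SCALE := by
  intro n p A b
  have h : ∀ i, ∃ (N : ℕ) (a : Fin n → ℤ), 0 < N ∧ ∀ j, (a j : ℝ) = (N : ℝ) * ((A i j : ℚ) : ℝ) :=
    fun i => row_den (A i)
  choose N a hN ha using h
  have hN' : ∀ i, (0 : ℝ) < (N i : ℝ) := fun i => by exact_mod_cast hN i
  have hsum : ∀ i (y : V n), dot (a i) y = (N i : ℝ) * ∑ j, (A i j : ℝ) * y j := by
    intro i y
    unfold dot
    rw [Finset.mul_sum]
    refine Finset.sum_congr rfl fun j _ => ?_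
    rw [ha i j]
    ring
  refine ⟨a, fun i => (N i : ℝ) * (b i : ℝ), fun y => ?_, fun y => ?_⟩
  · unfold Pt
    refine forall_congr' fun i => ?_
    rw [hsum i y]
    exact mul_le_mul_iff_right₀ (hN' i)
  · unfold Rc
    refine forall_congr' fun i => ?_
    rw [hsum i y]
    constructor
    · intro h1
      by_contra h2
      push Not at h2
      exact absurd h1 (not_le.2 (mul_pos (hN' i) h2))
    · intro h1
      exact mul_nonpos_of_nonneg_of_nonpos (hN' i).le h1

end Pool.Agent.X123.TR
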